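import Pool.Agent.Q224.MD.Path
import Pool.Agent.NPC.Dec

/-!
# A polynomial-time algorithm for the misere domination game on paths and cycles
-/

set_option autoImplicit false

namespace Q224.MD

open SimpleGraph Pool.Agent.NPC

/-! ### Isomorphic graphs -/

section Iso

variable {V W : Type} [Fintype V] [DecidableEq V] [Fintype W] [DecidableEq W]
  {G : SimpleGraph V} {G' : SimpleGraph W}

omit [Fintype V] [DecidableEq V] [Fintype W] [DecidableEq W] in
theorem iso_mem (φ : G ≃g G') (u v : V) : φ u ∈ closedNbhd G' (φ v) ↔ u ∈ closedNbhd G v := by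
  unfold closedNbhd
  simp only [Set.mem_ofPred_eq, φ.map_adj_iff, EmbeddingLike.apply_eq_iff_eq]

omit [Fintype V] [DecidableEq V] [Fintype W] [DecidableEq W] in
theorem iso_legal (φ : G ≃g G') (S : Finset V) (v : V) :
    Legal G' (S.map φ.toEquiv.toEmbedding) (φ v) ↔ Legal G S v := by
  rw [legal_iff, legal_iff]
  have h1 : ∀ u, Undom G' (S.map φ.toEquiv.toEmbedding) (φ u) ↔ Undom G S u := by
    intro u
    unfold Undom
    simp only [Finset.mem_map, forall_exists_index, and_imp, forall_apply_eq_imp_iff₂]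
    refine forall₂_congr fun s _ => ?_
    rw [← iso_mem φ u s]
    rfl
  constructor
  · rintro ⟨w, hw1, hw2⟩
    obtain ⟨u, rfl⟩ := φ.surjective w
    exact ⟨u, (iso_mem φ u v).1 hw1, (h1 u).1 hw2⟩
  · rintro ⟨u, hu1, hu2⟩
    exact ⟨φ u, (iso_mem φ u v).2 hu1, (h1 u).2 hu2⟩

theorem iso_wins (φ : G ≃g G') : ∀ (m : ℕ) (S : Finset V), Fintype.card V - S.card = m →
    (MoverWins G' (S.map φ.toEquiv.toEmbedding) ↔ MoverWins G S) := by
  intro m
  induction m using Nat.strong_induction_on with
  | _ m ih =>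
    intro S hm
    rw [moverWins_iff, moverWins_iff]
    have h1 : (∀ w, ¬ Legal G' (S.map φ.toEquiv.toEmbedding) w) ↔ ∀ v, ¬ Legal G S v := by
      constructor
      · intro h v hv
        exact h (φ v) ((iso_legal φ S v).2 hv)
      · intro h w hw
        obtain ⟨u, rfl⟩ := φ.surjective w
        exact h u ((iso_legal φ S u).1 hw)
    have hins : ∀ v, insert (φ v) (S.map φ.toEquiv.toEmbedding) =
        (insert v S).map φ.toEquiv.toEmbedding := by
      intro v
      rw [Finset.map_insert]
      rfl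
    have hdec : ∀ v, Legal G S v → Fintype.card V - (insert v S).card < m := by
      intro v hv
      have h1 : (insert v S).card = S.card + 1 := Finset.card_insert_of_notMem hv.notMem
      have h2 : (insert v S).card ≤ Fintype.card V := Finset.card_le_univ _
      omega
    rw [h1]
    refine or_congr Iff.rfl ⟨?_, ?_⟩
    · rintro ⟨w, hw1, hw2⟩
      obtain ⟨v, rfl⟩ := φ.surjective w
      have hv := (iso_legal φ S v).1 hw1
      rw [hins v, ih _ (hdec v hv) _ rfl] at hw2
      exact ⟨v, hv, hw2⟩
    · rintro ⟨v, hv1, hv2⟩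
      refine ⟨φ v, (iso_legal φ S v).2 hv1, ?_⟩
      rw [hins v, ih _ (hdec v hv1) _ rfl]
      exact hv2

theorem iso_alice (φ : G ≃g G') : AliceWins G ↔ AliceWins G' := by
  have h := iso_wins φ _ ∅ rfl
  rw [Finset.map_empty] at h
  exact h.symm

end Iso

/-! ### The algorithm -/

open Classical in
/-- The adjacency matrix of a graph. -/
noncomputable def adjMatrix {n : ℕ} (G : SimpleGraph (Fin n)) : List (List Bool) :=
  List.ofFn fun i => List.ofFn fun j => decide (G.Adj i j)

/-- The algorithm: a matrix with a row with at most one entry `true` is treated as the matrix of a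
path, other matrices as matrices of cycles; then the winner is found from the number of rows. -/
def solve (M : List (List Bool)) : Bool :=
  if (M.filter fun r => decide ((r.filter fun b => b).length ≤ 1)).isEmpty then
    decide (M.length = 4 ∨ M.length = 8 ∨ (13 ≤ M.length ∧ M.length % 4 = 1))
  else decide (M.length % 4 ≠ 2 ∧ M.length ≠ 1 ∧ M.length ≠ 5)

theorem poly_solve : Poly solve := by
  have hlen : Poly (fun M : List (List Bool) => M.length) := Poly.length Poly.id
  have h4 : Poly (fun M : List (List Bool) => M.length % 4) := Poly.mod hlen (Pool.Agent.NPC.Poly.const 4)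
  refine Poly.ite (p := fun M : List (List Bool) =>
      (M.filter fun r => decide ((r.filter fun b => b).length ≤ 1)).isEmpty = true)
    (Poly.decide_bool (Poly.isEmpty (Poly.filter (p := fun _ r =>
      decide ((List.filter (fun b => b) r).length ≤ 1)) Poly.id ?_))) ?_ ?_
  · exact Poly.decide_le (Poly.length (Poly.filter (p := fun _ b => b) (Poly.snd Poly.id)
      (Poly.snd Poly.id))) (Pool.Agent.NPC.Poly.const 1)
  · exact Poly.decide_or (Poly.decide_eq hlen (Pool.Agent.NPC.Poly.const 4))
      (Poly.decide_or (Poly.decide_eq hlen (Pool.Agent.NPC.Poly.const 8))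
        (Poly.decide_and (Poly.decide_le (Pool.Agent.NPC.Poly.const 13) hlen) (Poly.decide_eq h4 (Pool.Agent.NPC.Poly.const 1))))
  · exact Poly.decide_and (Poly.decide_not (Poly.decide_eq h4 (Pool.Agent.NPC.Poly.const 2)))
      (Poly.decide_and (Poly.decide_not (Poly.decide_eq hlen (Pool.Agent.NPC.Poly.const 1)))
        (Poly.decide_not (Poly.decide_eq hlen (Pool.Agent.NPC.Poly.const 5))))

theorem length_filter_ofFn {n : ℕ} (f : Fin n → Bool) :
    ((List.ofFn f).filter fun b => b).length = (Finset.univ.filter fun i => f i = true).card := by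
  rw [List.ofFn_eq_map, List.filter_map, List.length_map]
  simp only [Finset.card, Fin.univ_def, Finset.filter_val, Multiset.filter_coe, Multiset.coe_card]
  congr 1
  refine List.filter_congr fun x _ => ?_
  simp

open Classical in
theorem solve_path {n : ℕ} {G : SimpleGraph (Fin n)} (hn : 1 ≤ n) (φ : G ≃g pathGraph n) :
    solve (adjMatrix G) = decide (n % 4 ≠ 2 ∧ n ≠ 1 ∧ n ≠ 5) := by
  have hlen : (adjMatrix G).length = n := by simp [adjMatrix]
  unfold solve
  rw [if_neg, hlen]
  rw [List.isEmpty_iff, List.filter_eq_nil_iff]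
  intro hall
  have h1 := hall (List.ofFn fun j => decide (G.Adj (φ.symm ⟨0, hn⟩) j)) (by
    unfold adjMatrix
    rw [List.mem_ofFn]
    exact ⟨φ.symm ⟨0, hn⟩, rfl⟩)
  apply h1
  rw [decide_eq_true_iff, length_filter_ofFn, Finset.card_le_one]
  intro a ha b hb
  simp only [Finset.mem_filter, Finset.mem_univ, true_and, decide_eq_true_eq] at ha hb
  rw [← φ.map_adj_iff, φ.apply_symm_apply, pathGraph_adj] at ha hb
  apply φ.injective
  rw [Fin.ext_iff]
  simp only at ha hb
  omega

open Classical in
theorem solve_cycle {n : ℕ} {G : SimpleGraph (Fin n)} (hn : 3 ≤ n) (φ : G ≃g cycleGraph n) :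
    solve (adjMatrix G) = decide (n = 4 ∨ n = 8 ∨ (13 ≤ n ∧ n % 4 = 1)) := by
  have hlen : (adjMatrix G).length = n := by simp [adjMatrix]
  unfold solve
  rw [if_pos, hlen]
  rw [List.isEmpty_iff, List.filter_eq_nil_iff]
  intro r hr
  unfold adjMatrix at hr
  rw [List.mem_ofFn] at hr
  obtain ⟨i, rfl⟩ := hr
  rw [decide_eq_true_iff, length_filter_ofFn, not_le, Finset.one_lt_card]
  have hi := (φ i).2
  -- the two neighbours
  have key : ∀ x : Fin n, x ≠ φ i → x ∈ closedNbhd (cycleGraph n) (φ i) → G.Adj i (φ.symm x) := by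
    intro x hx1 hx2
    rw [← φ.map_adj_iff, φ.apply_symm_apply]
    rcases hx2 with h | h
    · exact absurd h hx1
    · exact h
  obtain ⟨a, ha1, ha2⟩ : ∃ a : Fin n, a ∈ closedNbhd (cycleGraph n) (φ i) ∧
      ((φ i).val + 1 < n ∧ a.val = (φ i).val + 1 ∨ (φ i).val + 1 = n ∧ a.val = 0) := by
    by_cases h : (φ i).val + 1 < n
    · refine ⟨⟨(φ i).val + 1, h⟩, ?_, Or.inl ⟨h, rfl⟩⟩
      rw [mem_closedNbhd_cycle hn]
      simp only
      omega
    · refine ⟨⟨0, by omega⟩, ?_, Or.inr ⟨by omega, rfl⟩⟩
      rw [mem_closedNbhd_cycle hn]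
      exact Or.inr (Or.inl ⟨rfl, by omega⟩)
  obtain ⟨b, hb1, hb2⟩ : ∃ b : Fin n, b ∈ closedNbhd (cycleGraph n) (φ i) ∧
      (b.val + 1 = (φ i).val ∨ (φ i).val = 0 ∧ b.val + 1 = n) := by
    by_cases h : 1 ≤ (φ i).val
    · refine ⟨⟨(φ i).val - 1, by omega⟩, ?_, Or.inl ?_⟩
      · rw [mem_closedNbhd_cycle hn]
        show ((φ i).val - 1 ≤ (φ i).val + 1 ∧ (φ i).val ≤ (φ i).val - 1 + 1) ∨ _
        omega
      · show (φ i).val - 1 + 1 = (φ i).val
        omega
    · refine ⟨⟨n - 1, by omega⟩, ?_, Or.inr ⟨by omega, ?_⟩⟩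
      · rw [mem_closedNbhd_cycle hn]
        refine Or.inr (Or.inr ⟨by omega, ?_⟩)
        show n - 1 + 1 = n
        omega
      · show n - 1 + 1 = n
        omega
  refine ⟨φ.symm a, ?_, φ.symm b, ?_, ?_⟩
  · simp only [Finset.mem_filter, Finset.mem_univ, true_and, decide_eq_true_eq]
    refine key a (fun h => ?_) ha1
    rw [Fin.ext_iff] at h
    omega
  · simp only [Finset.mem_filter, Finset.mem_univ, true_and, decide_eq_true_eq]
    refine key b (fun h => ?_) hb1
    rw [Fin.ext_iff] at h
    omega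
  · intro h
    have h2 := φ.symm.injective h
    rw [Fin.ext_iff] at h2
    omega

/-- **A polynomial-time algorithm.** -/
theorem exists_algorithm : ∃ F : List Bool → List Bool, PolyTime F ∧
    ∀ (n : ℕ) (G : SimpleGraph (Fin n)),
      (1 ≤ n ∧ Nonempty (G ≃g pathGraph n)) ∨ (3 ≤ n ∧ Nonempty (G ≃g cycleGraph n)) →
        (AliceWins G → F (bits (adjMatrix G)) = [true]) ∧
        (¬ AliceWins G → F (bits (adjMatrix G)) = [false]) := by
  obtain ⟨g, hg, hg2⟩ : ∃ g : List Bool → Bool, Poly g ∧
      ∀ M : List (List Bool), g (bits M) = solve M := by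
    refine ⟨_, Poly.optCases (o := unbits (List (List Bool))) (g := fun _ => false)
      (h := fun _ M => solve M) poly_unbits (Pool.Agent.NPC.Poly.const _)
      (poly_solve.comp (Poly.snd Poly.id)), fun M => ?_⟩
    simp only [unbits_bits]
  refine ⟨fun x => [g x], polyTime_of_poly hg, fun n G hG => ?_⟩
  have hgG : g (bits (adjMatrix G)) = solve (adjMatrix G) := hg2 _
  have hs : solve (adjMatrix G) = true ↔ AliceWins G := by
    rcases hG with ⟨hn, ⟨φ⟩⟩ | ⟨hn, ⟨φ⟩⟩
    · rw [solve_path hn φ, iso_alice φ, path_winner, decide_eq_true_iff]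
    · rw [solve_cycle hn φ, iso_alice φ, cycle_winner hn, decide_eq_true_iff]
  refine ⟨fun h => ?_, fun h => ?_⟩
  · simp only [hgG, hs.2 h]
  · have : solve (adjMatrix G) = false := by
      cases h1 : solve (adjMatrix G)
      · rfl
      · exact absurd (hs.1 h1) h
    simp only [hgG, this]

end Q224.MD
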