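import Mathlib

/-!
# The misere domination game
-/

set_option autoImplicit false

namespace Q224.MD

variable {V : Type}

/-- The closed neighbourhood of a vertex. -/
def closedNbhd (G : SimpleGraph V) (v : V) : Set V := {u | u = v ∨ G.Adj v u}

/-- After the vertices of `S` have been chosen, the vertex `v` is a legal move: its closed
neighbourhood is not covered by the closed neighbourhoods of the chosen vertices. -/
def Legal (G : SimpleGraph V) (S : Finset V) (v : V) : Prop :=
  ¬ closedNbhd G v ⊆ ⋃ s ∈ S, closedNbhd G s

theorem Legal.notMem {G : SimpleGraph V} {S : Finset V} {v : V} (h : Legal G S v) : v ∉ S := by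
  intro hv
  exact h (Set.subset_biUnion_of_mem (u := fun s => closedNbhd G s) hv)

/-- The player who moves next wins the misere domination game if the vertices of `S` have been
chosen: there is no legal move (the opponent has made the last move and loses), or there is a legal
move to a position in which the player who moves next (now the opponent) does not win. -/
def MoverWins [Fintype V] [DecidableEq V] (G : SimpleGraph V) (S : Finset V) : Prop :=
  (∀ v, ¬ Legal G S v) ∨ ∃ v, ∃ _ : Legal G S v, ¬ MoverWins G (insert v S)
termination_by Fintype.card V - S.card
decreasing_by
  have h := Legal.notMem ‹Legal G S v›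
  have h1 : (insert v S).card = S.card + 1 := Finset.card_insert_of_notMem h
  have h2 : (insert v S).card ≤ Fintype.card V := Finset.card_le_univ _
  omega

/-- Alice, who moves first, has a winning strategy in the misere domination game on `G`. -/
def AliceWins [Fintype V] [DecidableEq V] (G : SimpleGraph V) : Prop := MoverWins G ∅

end Q224.MD
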