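import Pool.Agent.Q224.MD.Win

/-!
# Misere play of the octal game 0.337: the winning moves, second part
-/

set_option autoImplicit false

namespace Q224.MD

/-- Case 3.1. -/
theorem win31 {X : Multiset ℕ} (h0 : H X = 1) (hs : X.sum % 2 = 1) :
    ∃ Y, Move X Y ∧ PP Y := by
  obtain ⟨c, hc, hc0⟩ := exists_pos (X := X) (by omega)
  obtain ⟨e1, e2⟩ := er hc
  have hcs := h_spec c
  have h6 := Step.two (c := c) (a := c - 2) (by omega)
  have hz : h 0 = 0 := rfl
  exact go (c - 2) 0 hc (Or.inr (Or.inl ⟨by omega, rfl⟩)) (ppA (by omega) (by omega))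

/-- Removing one from an odd heap. -/
theorem h_pred_odd {c : ℕ} (hc : c % 2 = 1) : h (c - 1) = h c := by
  have h1 := h_spec c
  have h2 := h_spec (c - 1)
  omega

/-- Removing one from an even heap. -/
theorem h_pred_even {c : ℕ} (hc : c % 2 = 0) (h0 : h c ≠ 0) : h (c - 1) + 1 = h c := by
  have h1 := h_spec c
  have h2 := h_spec (c - 1)
  omega

/-- Removing three from an odd heap. -/
theorem h_three_odd {c : ℕ} (hc : c % 2 = 1) (h0 : h c ≠ 0) : 3 ≤ c ∧ h (c - 3) + 1 = h c := by
  have h1 := h_spec c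
  have h2 := h_spec (c - 3)
  omega

/-- From an odd total to an even total, with the weight decreased by one. -/
theorem exists_dec {c : ℕ} (h0 : h c ≠ 0) : ∃ a, Step c a 0 ∧ a % 2 ≠ c % 2 ∧ h a + 1 = h c := by
  rcases Nat.mod_two_eq_zero_or_one c with hc | hc
  · have hcs := h_spec c
    exact ⟨c - 1, Or.inl ⟨by omega, rfl⟩, by omega, h_pred_even hc h0⟩
  · obtain ⟨h1, h2⟩ := h_three_odd hc h0
    exact ⟨c - 3, Or.inr (Or.inr (by omega)), by omega, h2⟩

/-- Case 3.2, first two subcases. -/
theorem win32a {X : Multiset ℕ} (hs : X.sum % 2 = 1) (hodd : H X % 2 = 1) {e : ℕ}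
    (he : e ∈ X) (hle : H X + 3 + 2 * (e % 2) ≤ 2 * h e) : ∃ Y, Move X Y ∧ PP Y := by
  obtain ⟨c, hc, hc1⟩ := exists_odd hs
  obtain ⟨e1, e2⟩ := er hc
  have hz : h 0 = 0 := rfl
  have h6 := h_pred_odd hc1
  refine go (c - 1) 0 hc (Or.inl ⟨by omega, rfl⟩) (ppO (H X) ?_ ?_ ?_ ?_)
  · omega
  · omega
  · omega
  · by_cases hec : e = c
    · subst hec
      left
      omega
    · right
      exact ⟨e, (Multiset.mem_erase_of_ne hec).2 he, hle⟩

theorem win32b {X : Multiset ℕ} (hs : X.sum % 2 = 1) (hodd : H X % 2 = 1) {e : ℕ}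
    (he : e ∈ X) (he1 : e % 2 = 1) (hle : H X + 3 ≤ 2 * h e) : ∃ Y, Move X Y ∧ PP Y := by
  obtain ⟨e1, e2⟩ := er he
  have hz : h 0 = 0 := rfl
  have h6 := h_pred_odd he1
  refine go (e - 1) 0 he (Or.inl ⟨by omega, rfl⟩) (ppO (H X) ?_ ?_ ?_ (Or.inl ?_))
  · omega
  · omega
  · omega
  · omega

/-- Case 3.2, remaining subcases. -/
theorem win32c {X : Multiset ℕ} (hs : X.sum % 2 = 1) (hodd : H X % 2 = 1) (h3 : 3 ≤ H X)
    (hall : ∀ c ∈ X, 2 * h c ≤ H X + 1) : ∃ Y, Move X Y ∧ PP Y := by
  have hz : h 0 = 0 := rfl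
  have h9 : h 9 = 2 := rfl
  by_cases hex : ∃ e ∈ X, e % 2 = 0 ∧ 2 * h e = H X + 1
  · obtain ⟨e, he, hev, heq⟩ := hex
    obtain ⟨e1, e2⟩ := er he
    have hes := h_spec e
    have h6 := h_pred_even hev (by omega)
    refine go (e - 1) 0 he (Or.inl ⟨by omega, rfl⟩) (ppE (H X - 1) ?_ ?_ ?_ ?_ ?_ ?_ ?_ ?_)
    · omega
    · omega
    · omega
    · omega
    · intro h2
      refine ⟨by omega, by omega, fun h99 => ?_⟩
      have := h_le_H h99
      omega
    · omega
    · omega
    · intro c hc
      have := h_le_H hc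
      omega
  · have hall' : ∀ c ∈ X, 2 * h c ≤ H X - 1 + 2 * (c % 2) := by
      intro c hc
      have h1 := hall c hc
      by_cases h2 : c % 2 = 0
      · have h4 : ¬ 2 * h c = H X + 1 := fun h5 => hex ⟨c, hc, h2, h5⟩
        clear hex
        omega
      · clear hex
        omega
    clear hex
    by_cases h99 : 9 ∈ X
    · obtain ⟨e1, e2⟩ := er h99
      have h7 : h 6 = 1 := rfl
      refine go 6 0 h99 (Or.inr (Or.inr rfl)) (ppE (H X - 1) ?_ ?_ ?_ ?_ ?_ ?_ ?_ ?_)
      · omega
      · omega
      · omega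
      · omega
      · intro h2
        refine ⟨by omega, by omega, fun h999 => ?_⟩
        have := h_le_H h999
        omega
      · omega
      · omega
      · intro c hc
        exact hall' c (Multiset.mem_of_mem_erase hc)
    · obtain ⟨c, hc, hc0⟩ := exists_pos (X := X) (by omega)
      obtain ⟨e1, e2⟩ := er hc
      have hc1 := hall' c hc
      have hc2 := hall c hc
      obtain ⟨a, ha1, ha2, ha3⟩ := exists_dec hc0
      have has := h_spec a
      have hsum : (c + a) % 2 = 1 := by omega
      refine go a 0 hc ha1 (ppE (H X - 1) ?_ ?_ ?_ ?_ ?_ ?_ ?_ ?_)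
      · omega
      · omega
      · omega
      · omega
      · intro h2
        refine ⟨?_, by omega, fun h999 => h99 (Multiset.mem_of_mem_erase h999)⟩
        rintro rfl
        omega
      · omega
      · omega
      · intro c hc
        exact hall' c (Multiset.mem_of_mem_erase hc)

/-- Case 3.3.1. -/
theorem win331 {X : Multiset ℕ} (hs : X.sum % 2 = 1) (hev : H X % 2 = 0) (h2 : 2 ≤ H X) {e : ℕ}
    (he : e ∈ X) (hlt : H X + 2 * (e % 2) < 2 * h e) : ∃ Y, Move X Y ∧ PP Y := by
  obtain ⟨e1, e2⟩ := er he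
  have hes := h_spec e
  have hz : h 0 = 0 := rfl
  by_cases hR : H (X.erase e) = 0
  · have hR0 : ∀ c ∈ X.erase e, h c = 0 := fun c hc => by
      have := h_le_H hc
      omega
    have h9 : 9 ∉ X.erase e := fun h99 => by
      have := hR0 9 h99
      simp [h] at this
    rcases Nat.mod_two_eq_zero_or_one e with hpe | hpe
    · by_cases h12 : e = 12
      · subst h12
        refine go 2 7 he (Or.inr (Or.inr rfl)) (ppE 2 ?_ ?_ ?_ ?_ ?_ ?_ ?_ ?_)
        · simp [h]; omega
        · omega
        · omega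
        · omega
        · intro _
          exact ⟨by omega, by omega, h9⟩
        · simp [h]
        · simp [h]
        · intro c hc
          rw [hR0 c hc]
          omega
      · obtain ⟨m, hm⟩ : ∃ m, H X = m := ⟨_, rfl⟩
        have hm1 := h_spec m
        have hm2 := h_spec (m + 1)
        refine go m (m + 1) he (Or.inr (Or.inr ?_)) (ppE (2 * h m) ?_ ?_ ?_ ?_ ?_ ?_ ?_ ?_)
        · omega
        · omega
        · omega
        · omega
        · omega
        · intro _
          exact ⟨by omega, by omega, h9⟩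
        · omega
        · omega
        · intro c hc
          rw [hR0 c hc]
          omega
    · by_cases h13 : e = 13
      · subst h13
        refine go 3 7 he (Or.inr (Or.inr rfl)) (ppE 2 ?_ ?_ ?_ ?_ ?_ ?_ ?_ ?_)
        · simp [h]; omega
        · omega
        · omega
        · omega
        · intro _
          exact ⟨by omega, by omega, h9⟩
        · simp [h]
        · simp [h]
        · intro c hc
          rw [hR0 c hc]
          omega
      · obtain ⟨m, hm⟩ : ∃ m, H X = m := ⟨_, rfl⟩
        have hm1 := h_spec (m + 1)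
        refine go (m + 1) (m + 1) he (Or.inr (Or.inr ?_)) (ppE (2 * h (m + 1)) ?_ ?_ ?_ ?_ ?_ ?_ ?_ ?_)
        · omega
        · omega
        · omega
        · omega
        · omega
        · intro _
          exact ⟨by omega, by omega, h9⟩
        · omega
        · omega
        · intro c hc
          rw [hR0 c hc]
          omega
  · obtain ⟨c, hc, hc0⟩ := exists_pos hR
    obtain ⟨hcX, heR⟩ := erase_swap he hc
    obtain ⟨f1, f2⟩ := er hcX
    obtain ⟨a, ha1, ha2, ha3⟩ := exists_dec hc0
    refine go a 0 hcX ha1 (ppO (H X - 1) ?_ ?_ ?_ (Or.inr ⟨e, heR, ?_⟩))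
    · omega
    · omega
    · omega
    · omega

/-- Case 3.3.2. -/
theorem win332 {X : Multiset ℕ} (hs : X.sum % 2 = 1) (hev : H X % 2 = 0) (h2 : 2 ≤ H X)
    (hall : ∀ c ∈ X, 2 * h c ≤ H X + 2 * (c % 2)) : ∃ Y, Move X Y ∧ PP Y := by
  have hz : h 0 = 0 := rfl
  by_cases hsp : H X = 2 ∧ 9 ∈ X
  · obtain ⟨h22, h9⟩ := hsp
    obtain ⟨e1, e2⟩ := er h9
    have h99 : h 9 = 2 := rfl
    have h33 : h 3 = 1 := rfl
    have hR0 : ∀ c ∈ X.erase 9, h c = 0 := fun c hc => by
      have := h_le_H hc
      omega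
    refine go 3 3 h9 (Or.inr (Or.inr rfl)) (ppE 2 ?_ ?_ ?_ ?_ ?_ ?_ ?_ ?_)
    · omega
    · omega
    · omega
    · omega
    · intro _
      refine ⟨by omega, by omega, fun h999 => ?_⟩
      have := hR0 9 h999
      omega
    · omega
    · omega
    · intro c hc
      rw [hR0 c hc]
      omega
  · by_cases hex : ∃ c ∈ X, c % 2 = 1 ∧ 2 * h c ≤ H X
    · obtain ⟨c, hc, hc1, hc2⟩ := hex
      obtain ⟨e1, e2⟩ := er hc
      have h6 := h_pred_odd hc1
      refine go (c - 1) 0 hc (Or.inl ⟨by omega, rfl⟩) (ppE (H X) ?_ ?_ ?_ ?_ ?_ ?_ ?_ ?_)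
      · omega
      · omega
      · omega
      · omega
      · intro h22
        exact ⟨by omega, by omega, fun h99 => hsp ⟨h22, Multiset.mem_of_mem_erase h99⟩⟩
      · omega
      · omega
      · intro d hd
        exact hall d (Multiset.mem_of_mem_erase hd)
    · obtain ⟨c, hc, hc1⟩ := exists_odd hs
      have hc2 : ¬ 2 * h c ≤ H X := fun h3 => hex ⟨c, hc, hc1, h3⟩
      clear hex
      have hc3 := hall c hc
      obtain ⟨e1, e2⟩ := er hc
      have hcs := h_spec c
      have hc9 : ¬ (H X = 2 ∧ c = 9) := by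
        rintro ⟨h22, rfl⟩
        exact hsp ⟨h22, hc⟩
      have h11 : 11 ≤ c := by omega
      have hc6 := h_spec (c - 6)
      have h33 : h 3 = 1 := rfl
      have h66 : h (c - 6) + 3 = h c := by omega
      have h9 : h 9 = 2 := rfl
      refine go 3 (c - 6) hc (Or.inr (Or.inr (by omega))) (ppE (H X - 2) ?_ ?_ ?_ ?_ ?_ ?_ ?_ ?_)
      · omega
      · omega
      · omega
      · omega
      · intro h22
        refine ⟨by omega, by omega, fun h99 => ?_⟩
        have := h_le_H h99
        omega
      · omega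
      · omega
      · intro d hd
        have := h_le_H hd
        omega

/-- From every other nonempty position there is a move to a previous player position. -/
theorem exists_move {X : Multiset ℕ} (hX : ¬ PP X) (hne : X.sum ≠ 0) : ∃ Y, Move X Y ∧ PP Y := by
  by_cases h0 : H X = 0
  · by_cases hs : X.sum % 2 = 1
    · exact absurd (Or.inl ⟨h0, hs⟩) hX
    · exact win1 h0 (by omega) hne
  · rcases Nat.mod_two_eq_zero_or_one X.sum with hs | hs
    · by_cases hsp : H X = 2 ∧ 9 ∈ X
      · exact win21 hsp.1 hs hsp.2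
      · rcases Nat.mod_two_eq_zero_or_one (H X) with hp | hp
        · by_cases hall : ∀ c ∈ X, 2 * h c ≤ H X + 2 * (c % 2)
          · exact absurd (Or.inr ⟨h0, hs, hsp, Or.inl ⟨hp, hall⟩⟩) hX
          · push Not at hall
            obtain ⟨e, he, hlt⟩ := hall
            exact win22 hs hp he hlt
        · by_cases hex : ∃ c ∈ X, H X + 3 + 2 * (c % 2) ≤ 2 * h c
          · exact absurd (Or.inr ⟨h0, hs, hsp, Or.inr ⟨hp, hex⟩⟩) hX
          · push Not at hex
            by_cases h1 : H X = 1
            · exact win23a h1 hs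
            · exact win23b (by clear hex hX hsp; omega) hs hp hex
    · rcases Nat.mod_two_eq_zero_or_one (H X) with hp | hp
      · have h2 : 2 ≤ H X := by clear hX; omega
        by_cases hall : ∀ c ∈ X, 2 * h c ≤ H X + 2 * (c % 2)
        · exact win332 hs hp h2 hall
        · push Not at hall
          obtain ⟨e, he, hlt⟩ := hall
          exact win331 hs hp h2 he hlt
      · by_cases h1 : H X = 1
        · exact win31 h1 hs
        · have h3 : 3 ≤ H X := by clear hX; omega
          by_cases hex : ∃ c ∈ X, H X + 3 + 2 * (c % 2) ≤ 2 * h c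
          · obtain ⟨e, he, hle⟩ := hex
            exact win32a hs hp he hle
          · push Not at hex
            by_cases hex2 : ∃ e ∈ X, e % 2 = 1 ∧ H X + 3 ≤ 2 * h e
            · obtain ⟨e, he, he1, hle⟩ := hex2
              exact win32b hs hp he he1 hle
            · refine win32c hs hp h3 fun c hc => ?_
              have h4 := hex c hc
              rcases Nat.mod_two_eq_zero_or_one c with hc0 | hc0
              · clear hex hex2 hX
                omega
              · have h5 : ¬ H X + 3 ≤ 2 * h c := fun h6 => hex2 ⟨c, hc, hc0, h6⟩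
                clear hex hex2 hX
                omega

end Q224.MD
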