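import Pool.Agent.Q224.MD.Defs
import Pool.Agent.Q224.MD.Win2

/-!
# The domination game on paths and cycles as a game on intervals
-/

set_option autoImplicit false

namespace Q224.MD

variable {V : Type} [Fintype V] [DecidableEq V]

theorem moverWins_iff {G : SimpleGraph V} {S : Finset V} :
    MoverWins G S ↔ (∀ v, ¬ Legal G S v) ∨ ∃ v, Legal G S v ∧ ¬ MoverWins G (insert v S) := by
  rw [MoverWins]
  simp only [exists_prop]

/-- The vertex `u` is not dominated. -/
def Undom (G : SimpleGraph V) (S : Finset V) (u : V) : Prop := ∀ s ∈ S, u ∉ closedNbhd G s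

omit [Fintype V] [DecidableEq V] in
theorem legal_iff {G : SimpleGraph V} {S : Finset V} {v : V} :
    Legal G S v ↔ ∃ u ∈ closedNbhd G v, Undom G S u := by
  unfold Legal Undom
  rw [Set.not_subset]
  simp

omit [Fintype V] in
theorem undom_insert {G : SimpleGraph V} {S : Finset V} {v u : V} :
    Undom G (insert v S) u ↔ Undom G S u ∧ u ∉ closedNbhd G v := by
  unfold Undom
  simp only [Finset.mem_insert, forall_eq_or_imp]
  tauto

/-- Intervals are separated. -/
def Sep (p q : ℕ × ℕ) : Prop :=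
  p.2 = 0 ∨ q.2 = 0 ∨ p.1 + p.2 + 2 ≤ q.1 ∨ q.1 + q.2 + 2 ≤ p.1

theorem Sep.symm {p q : ℕ × ℕ} (hs : Sep p q) : Sep q p := by
  unfold Sep at *
  tauto

/-- The undominated vertices form separated intervals. -/
structure Good (G : SimpleGraph V) (pos : V → ℕ) (n : ℕ) (S : Finset V) (L : List (ℕ × ℕ)) :
    Prop where
  und : ∀ u, Undom G S u ↔ ∃ p ∈ L, p.1 ≤ pos u ∧ pos u < p.1 + p.2
  bd : ∀ p ∈ L, p.2 = 0 ∨ p.1 + p.2 ≤ n
  sep : L.Pairwise Sep
  adj : ∀ u, Undom G S u → ∀ v, u ∈ closedNbhd G v ↔ pos u ≤ pos v + 1 ∧ pos v ≤ pos u + 1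
  lt : ∀ u, pos u < n
  surj : ∀ x < n, ∃ u, pos u = x
  ne : S.Nonempty

variable {G : SimpleGraph V} {pos : V → ℕ} {n : ℕ} {S : Finset V}

/-- The heap sizes. -/
def sizes (L : List (ℕ × ℕ)) : Multiset ℕ := (L.map Prod.snd : List ℕ)

omit [Fintype V] [DecidableEq V] in
theorem Good.perm {L L' : List (ℕ × ℕ)} (hL : Good G pos n S L) (hp : L.Perm L') :
    Good G pos n S L' where
  und u := by
    rw [hL.und u]
    constructor
    · rintro ⟨p, h1, h2⟩
      exact ⟨p, hp.mem_iff.1 h1, h2⟩
    · rintro ⟨p, h1, h2⟩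
      exact ⟨p, hp.mem_iff.2 h1, h2⟩
  bd p hpL := hL.bd p (hp.mem_iff.2 hpL)
  sep := (hp.pairwise_iff (fun h => h.symm)).1 hL.sep
  adj := hL.adj
  lt := hL.lt
  surj := hL.surj
  ne := hL.ne

omit [Fintype V] in
/-- The effect of choosing a vertex next to or in an interval. -/
theorem Good.step {L : List (ℕ × ℕ)} {a k : ℕ} (hL : Good G pos n S ((a, k) :: L))
    (hk : 1 ≤ k) {v : V} (h1 : a ≤ pos v + 1) (h2 : pos v ≤ a + k) :
    Good G pos n (insert v S)
      ((a, min k (pos v - 1 - a)) :: (pos v + 2, a + k - (pos v + 2)) :: L) := by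
  have hsep := hL.sep
  rw [List.pairwise_cons] at hsep
  have hbd := hL.bd (a, k) (by simp)
  simp only at hbd
  refine ⟨fun u => ?_, ?_, ?_, ?_, hL.lt, hL.surj, by simp⟩
  · rw [undom_insert]
    constructor
    · rintro ⟨hu, hv⟩
      rw [hL.adj u hu v] at hv
      obtain ⟨p, hp, hp1, hp2⟩ := (hL.und u).1 hu
      rcases List.mem_cons.1 hp with rfl | hp
      · simp only at hp1 hp2
        by_cases h3 : pos u < pos v
        · exact ⟨(a, min k (pos v - 1 - a)), by simp, hp1, by simp only; omega⟩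
        · exact ⟨(pos v + 2, a + k - (pos v + 2)), by simp, by simp only; omega,
            by simp only; omega⟩
      · exact ⟨p, by simp [hp], hp1, hp2⟩
    · rintro ⟨p, hp, hp1, hp2⟩
      have hu : Undom G S u := by
        rw [hL.und u]
        rcases List.mem_cons.1 hp with rfl | hp
        · simp only at hp1 hp2
          exact ⟨(a, k), by simp, hp1, by simp only; omega⟩
        · rcases List.mem_cons.1 hp with rfl | hp
          · simp only at hp1 hp2
            exact ⟨(a, k), by simp, by simp only; omega, by simp only; omega⟩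
          · exact ⟨p, by simp [hp], hp1, hp2⟩
      refine ⟨hu, ?_⟩
      rw [hL.adj u hu v]
      rcases List.mem_cons.1 hp with rfl | hp
      · simp only at hp1 hp2
        omega
      · rcases List.mem_cons.1 hp with rfl | hp
        · simp only at hp1 hp2
          omega
        · have h3 := hsep.1 p hp
          unfold Sep at h3
          simp only at h3
          omega
  · intro p hp
    rcases List.mem_cons.1 hp with rfl | hp
    · simp only
      omega
    · rcases List.mem_cons.1 hp with rfl | hp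
      · simp only
        omega
      · exact hL.bd p (by simp [hp])
  · rw [List.pairwise_cons, List.pairwise_cons]
    refine ⟨fun q hq => ?_, fun q hq => ?_, hsep.2⟩
    · rcases List.mem_cons.1 hq with rfl | hq
      · unfold Sep
        simp only
        omega
      · have h3 := hsep.1 q hq
        unfold Sep at h3 ⊢
        simp only at h3 ⊢
        omega
    · have h3 := hsep.1 q hq
      unfold Sep at h3 ⊢
      simp only at h3 ⊢
      omega
  · intro u hu w
    exact hL.adj u (undom_insert.1 hu).1 w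

omit [Fintype V] in
/-- A legal move is a move of the octal game. -/
theorem Good.of_legal {L : List (ℕ × ℕ)} (hL : Good G pos n S L) {v : V} (hv : Legal G S v) :
    ∃ L', Good G pos n (insert v S) L' ∧ Move (sizes L) (sizes L') := by
  obtain ⟨u, hu1, hu2⟩ := legal_iff.1 hv
  obtain ⟨⟨a, k⟩, hp, hp1, hp2⟩ := (hL.und u).1 hu2
  simp only at hp1 hp2
  rw [hL.adj u hu2 v] at hu1
  obtain ⟨L0, hL0⟩ : ∃ L0, L.Perm ((a, k) :: L0) := ⟨_, List.perm_cons_erase hp⟩
  have hL1 := hL.perm hL0
  refine ⟨_, hL1.step (v := v) (by omega) (by omega) (by omega), ?_⟩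
  have hsz : sizes L = k ::ₘ sizes L0 := by
    unfold sizes
    rw [Multiset.cons_coe, Multiset.coe_eq_coe]
    exact hL0.map _
  have hsz' : sizes ((a, min k (pos v - 1 - a)) :: (pos v + 2, a + k - (pos v + 2)) :: L0) =
      (min k (pos v - 1 - a)) ::ₘ (a + k - (pos v + 2)) ::ₘ sizes L0 := rfl
  rw [hsz']
  have hcase : Step k (min k (pos v - 1 - a)) (a + k - (pos v + 2)) ∨
      Step k (a + k - (pos v + 2)) (min k (pos v - 1 - a)) := by
    unfold Step
    omega
  rcases hcase with h | h
  · exact ⟨sizes L0, k, _, _, hsz, h, rfl⟩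
  · exact ⟨sizes L0, k, _, _, hsz, h, Multiset.cons_swap _ _ _⟩

omit [Fintype V] in
/-- Every move of the octal game is a legal move. -/
theorem Good.of_move {L : List (ℕ × ℕ)} (hL : Good G pos n S L) {Y : Multiset ℕ}
    (hm : Move (sizes L) Y) :
    ∃ v, Legal G S v ∧ ∃ L', Good G pos n (insert v S) L' ∧ sizes L' = Y := by
  obtain ⟨R, c, a', b', hR, hs, rfl⟩ := hm
  have hc : c ∈ sizes L := by rw [hR]; simp
  obtain ⟨⟨a, k⟩, hp, hpk⟩ : ∃ p ∈ L, p.2 = c := by
    unfold sizes at hc
    rw [Multiset.mem_coe, List.mem_map] at hc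
    exact hc
  simp only at hpk
  subst hpk
  obtain ⟨L0, hL0⟩ : ∃ L0, L.Perm ((a, k) :: L0) := ⟨_, List.perm_cons_erase hp⟩
  have hL1 := hL.perm hL0
  have hsz : sizes L = k ::ₘ sizes L0 := by
    unfold sizes
    rw [Multiset.cons_coe, Multiset.coe_eq_coe]
    exact hL0.map _
  have hR0 : R = sizes L0 := by
    rw [hsz] at hR
    exact ((Multiset.cons_inj_right k).1 hR).symm
  have hk : 1 ≤ k := by
    unfold Step at hs
    omega
  have hbd := hL1.bd (a, k) (by simp)
  simp only at hbd
  -- not everything is undominated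
  have hfull : ¬ (a = 0 ∧ k = n) := by
    rintro ⟨rfl, rfl⟩
    obtain ⟨s, hs⟩ := hL.ne
    have h1 : Undom G S s := (hL1.und s).2 ⟨(0, k), by simp, by simp, by
      have := hL.lt s
      simp only
      omega⟩
    exact h1 s hs (Or.inl rfl)
  -- the position to choose
  obtain ⟨x, hx1, hx2, hx3, hx4⟩ : ∃ x, x < n ∧ a ≤ x + 1 ∧ x ≤ a + k ∧
      ((min k (x - 1 - a) = a' ∧ a + k - (x + 2) = b') ∨
        (min k (x - 1 - a) = b' ∧ a + k - (x + 2) = a')) := by
    rcases hs with hs | hs | hs
    · by_cases h1 : a + k < n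
      · exact ⟨a + k, by omega, by omega, by omega, by left; omega⟩
      · exact ⟨a - 1, by omega, by omega, by omega, by right; omega⟩
    · exact ⟨a + k - 1, by omega, by omega, by omega, by left; omega⟩
    · exact ⟨a + a' + 1, by omega, by omega, by omega, by left; omega⟩
  obtain ⟨v, rfl⟩ := hL.surj x hx1
  have hG := hL1.step (v := v) hk hx2 hx3
  refine ⟨v, ?_, _, hG, ?_⟩
  · -- legality
    rw [legal_iff]
    obtain ⟨y, hy1, hy2, hy3, hy4⟩ : ∃ y, a ≤ y ∧ y < a + k ∧ y ≤ pos v + 1 ∧ pos v ≤ y + 1 := by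
      by_cases h1 : pos v < a
      · exact ⟨a, by omega, by omega, by omega, by omega⟩
      · by_cases h2 : pos v < a + k
        · exact ⟨pos v, by omega, by omega, by omega, by omega⟩
        · exact ⟨a + k - 1, by omega, by omega, by omega, by omega⟩
    obtain ⟨u, rfl⟩ := hL.surj y (by omega)
    have hu : Undom G S u := (hL1.und u).2 ⟨(a, k), by simp, hy1, hy2⟩
    exact ⟨u, (hL.adj u hu v).2 ⟨hy3, hy4⟩, hu⟩
  · have hsz' : sizes ((a, min k (pos v - 1 - a)) :: (pos v + 2, a + k - (pos v + 2)) :: L0) =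
        (min k (pos v - 1 - a)) ::ₘ (a + k - (pos v + 2)) ::ₘ sizes L0 := rfl
    rw [hsz', hR0]
    rcases hx4 with ⟨h1, h2⟩ | ⟨h1, h2⟩
    · rw [h1, h2]
    · rw [h1, h2]
      exact Multiset.cons_swap _ _ _

omit [Fintype V] [DecidableEq V] in
/-- The game has ended iff all heaps are empty. -/
theorem Good.ended {L : List (ℕ × ℕ)} (hL : Good G pos n S L) :
    (∀ v, ¬ Legal G S v) ↔ (sizes L).sum = 0 := by
  constructor
  · intro hv
    by_contra h0
    obtain ⟨c, hc, hc0⟩ := exists_ne h0
    obtain ⟨⟨a, k⟩, hp, hpk⟩ : ∃ p ∈ L, p.2 = c := by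
      unfold sizes at hc
      rw [Multiset.mem_coe, List.mem_map] at hc
      exact hc
    simp only at hpk
    subst hpk
    have hbd := hL.bd (a, k) hp
    simp only at hbd
    obtain ⟨u, hu⟩ := hL.surj a (by omega)
    have hu2 : Undom G S u := (hL.und u).2 ⟨(a, k), hp, by simp only; omega, by simp only; omega⟩
    exact hv u (legal_iff.2 ⟨u, Or.inl rfl, hu2⟩)
  · intro h0 v hv
    obtain ⟨u, _, hu2⟩ := legal_iff.1 hv
    obtain ⟨p, hp, hp1, hp2⟩ := (hL.und u).1 hu2
    have h1 : p.2 ∈ sizes L := by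
      unfold sizes
      rw [Multiset.mem_coe, List.mem_map]
      exact ⟨p, hp, rfl⟩
    have := Multiset.sum_eq_zero_iff.1 h0 _ h1
    omega

/-- The winner. -/
theorem Good.wins_iff : ∀ (m : ℕ) (S : Finset V) (L : List (ℕ × ℕ)),
    Fintype.card V - S.card = m → Good G pos n S L → (MoverWins G S ↔ ¬ PP (sizes L)) := by
  intro m
  induction m using Nat.strong_induction_on with
  | _ m ih =>
    intro S L hm hL
    have hdec : ∀ v, Legal G S v → Fintype.card V - (insert v S).card < m := by
      intro v hv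
      have h1 : (insert v S).card = S.card + 1 := Finset.card_insert_of_notMem hv.notMem
      have h2 : (insert v S).card ≤ Fintype.card V := Finset.card_le_univ _
      omega
    rw [moverWins_iff]
    constructor
    · rintro (hend | ⟨v, hv, hv2⟩) hP
      · exact hP.ne (hL.ended.1 hend)
      · obtain ⟨L', hL', hmv⟩ := hL.of_legal hv
        have h3 := hP.no_move hmv
        exact hv2 ((ih _ (hdec v hv) _ L' rfl hL').2 h3)
    · intro hP
      by_cases h0 : (sizes L).sum = 0
      · exact Or.inl (hL.ended.2 h0)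
      · right
        obtain ⟨Y, hY, hPY⟩ := exists_move hP h0
        obtain ⟨v, hv, L', hL', rfl⟩ := hL.of_move hY
        exact ⟨v, hv, fun hw => (ih _ (hdec v hv) _ L' rfl hL').1 hw hPY⟩

end Q224.MD
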