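import Mathlib

/-!
# Misere play of the octal game 0.337

A position is a multiset of natural numbers (heaps).  A move replaces a heap `c` by two heaps
`a`, `b` such that `b = 0` and `a = c - 1`, or `b = 0` and `a = c - 2`, or `a + b = c - 3`.  The
positions from which the previous player wins (under the misere rule) are described explicitly.
-/

set_option autoImplicit false

namespace Q224.MD

/-- The weight of a heap. -/
def h (v : ℕ) : ℕ := if v < 2 then 0 else if v < 4 then 1 else v / 2 - 2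

theorem h_spec (v : ℕ) : (v < 2 ∧ h v = 0) ∨ (2 ≤ v ∧ v < 4 ∧ h v = 1) ∨
    (4 ≤ v ∧ h v = v / 2 - 2) := by
  unfold h
  split_ifs with h1 h2
  · exact Or.inl ⟨h1, rfl⟩
  · exact Or.inr (Or.inl ⟨by omega, h2, rfl⟩)
  · exact Or.inr (Or.inr ⟨by omega, rfl⟩)

/-- Total weight. -/
def H (X : Multiset ℕ) : ℕ := (X.map h).sum

@[simp] theorem H_zero : H 0 = 0 := rfl

@[simp] theorem H_cons (a : ℕ) (X : Multiset ℕ) : H (a ::ₘ X) = h a + H X := by
  simp [H]

theorem h_le_H {a : ℕ} {X : Multiset ℕ} (ha : a ∈ X) : h a ≤ H X := by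
  obtain ⟨R, rfl⟩ := Multiset.exists_cons_of_mem ha
  simp

/-- One heap is replaced by two heaps. -/
def Step (c a b : ℕ) : Prop := (a + 1 = c ∧ b = 0) ∨ (a + 2 = c ∧ b = 0) ∨ a + b + 3 = c

/-- Moves. -/
def Move (X Y : Multiset ℕ) : Prop :=
  ∃ (R : Multiset ℕ) (c a b : ℕ), X = c ::ₘ R ∧ Step c a b ∧ Y = a ::ₘ b ::ₘ R

/-- The positions from which the previous player wins. -/
def PP (X : Multiset ℕ) : Prop :=
  (H X = 0 ∧ X.sum % 2 = 1) ∨
  (H X ≠ 0 ∧ X.sum % 2 = 0 ∧ ¬ (H X = 2 ∧ 9 ∈ X) ∧
    ((H X % 2 = 0 ∧ ∀ c ∈ X, 2 * h c ≤ H X + 2 * (c % 2)) ∨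
     (H X % 2 = 1 ∧ ∃ c ∈ X, H X + 3 + 2 * (c % 2) ≤ 2 * h c)))

/-- A previous player position has a nonempty heap. -/
theorem PP.ne {X : Multiset ℕ} (hX : PP X) : X.sum ≠ 0 := by
  intro h0
  have h1 : ∀ c ∈ X, c = 0 := fun c hc => Multiset.sum_eq_zero_iff.1 h0 c hc
  have h2 : H X = 0 := by
    unfold H
    rw [Multiset.sum_eq_zero_iff]
    intro x hx
    obtain ⟨c, hc, rfl⟩ := Multiset.mem_map.1 hx
    rw [h1 c hc]
    rfl
  rcases hX with ⟨_, h3⟩ | ⟨h3, _⟩
  · omega
  · exact h3 h2

/-- Consequences of a move for the weights: a move of size two. -/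
theorem Step.two {c a : ℕ} (hs : a + 2 = c) : h a + 1 = h c ∨ (h a = 1 ∧ h c = 0) := by
  have hc := h_spec c
  have ha := h_spec a
  omega

/-- There is no move between previous player positions. -/
theorem PP.no_move {X Y : Multiset ℕ} (hX : PP X) (hm : Move X Y) : ¬ PP Y := by
  obtain ⟨R, c, a, b, rfl, hs, rfl⟩ := hm
  intro hY
  have hc := h_spec c
  have ha := h_spec a
  have hb := h_spec b
  have hR : ∀ e ∈ R, h e ≤ H R := fun e he => h_le_H he
  simp only [PP, H_cons, Multiset.sum_cons, Multiset.mem_cons, forall_eq_or_imp,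
    exists_eq_or_imp] at hX hY
  rcases hX with ⟨x1, x2⟩ | ⟨x1, x2, x3, x4⟩
  · -- all heaps have weight zero
    rcases hY with ⟨y1, y2⟩ | ⟨y1, y2, y3, y4⟩
    · rcases hs with hs | hs | hs <;> omega
    · clear y3
      rcases y4 with ⟨y4, _⟩ | ⟨y4, y5 | y5 | ⟨e, he, y5⟩⟩
      · rcases hs with hs | hs | hs <;> omega
      · rcases hs with hs | hs | hs <;> omega
      · rcases hs with hs | hs | hs <;> omega
      · have := hR e he
        rcases hs with hs | hs | hs <;> omega
  · rcases hY with ⟨y1, y2⟩ | ⟨y1, y2, y3, y4⟩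
    · -- to weight zero
      have hR0 : H R = 0 := by clear x3 x4; omega
      rcases x4 with ⟨x4, x5, _⟩ | ⟨x4, x5 | ⟨e, he, x5⟩⟩
      · have h99 : c ≠ 9 := by
          intro h9c
          subst h9c
          have h9 : h 9 = 2 := rfl
          exact x3 ⟨by clear x3; omega, Or.inl rfl⟩
        clear x3
        rcases hs with hs | hs | hs <;> omega
      · clear x3
        rcases hs with hs | hs | hs <;> omega
      · have := hR e he
        clear x3
        omega
    · -- a move of size two
      clear x3 y3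
      have hs2 : a + 2 = c ∧ b = 0 := by
        clear x4 y4
        rcases hs with hs | hs | hs
        · omega
        · exact hs
        · omega
      obtain ⟨s1, s2⟩ := hs2
      have hac := Step.two s1
      have hpar : a % 2 = c % 2 := by clear x4 y4; omega
      have hb0 : h b = 0 := by rw [s2]; rfl
      have hb2 : b % 2 = 0 := by rw [s2]
      clear hc ha hb hs x1 x2 y1 y2
      rcases x4 with ⟨x4, x5, x6⟩ | ⟨x4, x5⟩
      · rcases y4 with ⟨y4, y5⟩ | ⟨y4, y5⟩
        · clear y5; omega
        · rcases y5 with y5 | y5 | ⟨e, he, y5⟩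
          · omega
          · omega
          · have := x6 e he
            omega
      · rcases y4 with ⟨y4, y5, y6, y7⟩ | ⟨y4, y5⟩
        · rcases x5 with x5 | ⟨e, he, x5⟩
          · omega
          · have := y7 e he
            omega
        · clear x5 y5
          omega

end Q224.MD
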