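import Pool.Agent.Q224.MD.Game

/-!
# The misere domination game on paths and cycles: the winner
-/

set_option autoImplicit false

namespace Q224.MD

open SimpleGraph

theorem pp_pair (a b : ℕ) : PP (a ::ₘ b ::ₘ 0) ↔
    (h a + h b = 0 ∧ (a + b) % 2 = 1) ∨
    (h a + h b ≠ 0 ∧ (a + b) % 2 = 0 ∧ ¬ (h a + h b = 2 ∧ (a = 9 ∨ b = 9)) ∧
      (((h a + h b) % 2 = 0 ∧ 2 * h a ≤ h a + h b + 2 * (a % 2) ∧
        2 * h b ≤ h a + h b + 2 * (b % 2)) ∨
       ((h a + h b) % 2 = 1 ∧ (h a + h b + 3 + 2 * (a % 2) ≤ 2 * h a ∨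
        h a + h b + 3 + 2 * (b % 2) ≤ 2 * h b)))) := by
  unfold PP
  simp only [H_cons, H_zero, Multiset.sum_cons, Multiset.sum_zero, Multiset.mem_cons,
    Multiset.notMem_zero, or_false, add_zero, forall_eq_or_imp, exists_eq_or_imp, false_and,
    exists_false, forall_eq, exists_eq_left, eq_comm (a := 9)]

theorem mem_closedNbhd_path {n : ℕ} (u v : Fin n) :
    u ∈ closedNbhd (pathGraph n) v ↔ u.val ≤ v.val + 1 ∧ v.val ≤ u.val + 1 := by
  unfold closedNbhd
  rw [Set.mem_setOf_eq, pathGraph_adj, Fin.ext_iff]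
  omega

theorem path_good {n : ℕ} (v : Fin n) :
    Good (pathGraph n) (fun u => u.val) n {v} [(0, v.val - 1), (v.val + 2, n - (v.val + 2))] where
  und u := by
    unfold Undom
    have hu := u.2
    simp only [Finset.mem_singleton, forall_eq, mem_closedNbhd_path, List.mem_cons,
      List.not_mem_nil, or_false, exists_eq_or_imp, exists_eq_left]
    omega
  bd p hp := by
    have hv := v.2
    simp only [List.mem_cons, List.not_mem_nil, or_false] at hp
    rcases hp with rfl | rfl
    · simp only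
      omega
    · simp only
      omega
  sep := by
    simp only [List.pairwise_cons, List.mem_cons, List.not_mem_nil, or_false, forall_eq,
      IsEmpty.forall_iff, implies_true, List.Pairwise.nil, and_true, Sep]
    omega
  adj u _ w := mem_closedNbhd_path u w
  lt u := u.2
  surj x hx := ⟨⟨x, hx⟩, rfl⟩
  ne := ⟨v, by simp⟩

theorem legal_empty {V : Type} {G : SimpleGraph V} (v : V) : Legal G ∅ v := by
  rw [legal_iff]
  exact ⟨v, Or.inl rfl, fun s hs => absurd hs (Finset.notMem_empty s)⟩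

theorem path_iff {n : ℕ} : AliceWins (pathGraph n) ↔
    n = 0 ∨ ∃ x < n, PP ((x - 1) ::ₘ (n - (x + 2)) ::ₘ 0) := by
  unfold AliceWins
  rw [moverWins_iff]
  constructor
  · rintro (h1 | ⟨v, _, h2⟩)
    · left
      by_contra hn
      exact h1 ⟨0, by omega⟩ (legal_empty _)
    · right
      refine ⟨v.val, v.2, ?_⟩
      by_contra h3
      exact h2 (((path_good v).wins_iff _ _ _ rfl).2 h3)
  · rintro (rfl | ⟨x, hx, hP⟩)
    · left
      intro v
      exact v.elim0
    · right
      refine ⟨⟨x, hx⟩, legal_empty _, fun hw => ?_⟩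
      exact ((path_good ⟨x, hx⟩).wins_iff _ _ _ rfl).1 hw hP

/-- **The winner on paths.** -/
theorem path_winner (n : ℕ) : AliceWins (pathGraph n) ↔ n % 4 ≠ 2 ∧ n ≠ 1 ∧ n ≠ 5 := by
  rw [path_iff]
  constructor
  · rintro (rfl | ⟨x, hx, hP⟩)
    · omega
    · rw [pp_pair] at hP
      have h1 := h_spec (x - 1)
      have h2 := h_spec (n - (x + 2))
      omega
  · intro hn
    by_cases h0 : n = 0
    · exact Or.inl h0
    · right
      have key : n = 3 ∨ n = 4 ∨ n = 7 ∨ n = 8 ∨ n = 9 ∨ n = 11 ∨ (12 ≤ n ∧ n % 4 = 0) ∨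
          (13 ≤ n ∧ n % 4 = 1) ∨ (15 ≤ n ∧ n % 4 = 3) := by omega
      rcases key with rfl | rfl | rfl | rfl | rfl | rfl | ⟨h1, h2⟩ | ⟨h1, h2⟩ | ⟨h1, h2⟩
      · exact ⟨0, by omega, by rw [pp_pair]; simp [h]⟩
      · exact ⟨1, by omega, by rw [pp_pair]; simp [h]⟩
      · exact ⟨0, by omega, by rw [pp_pair]; simp [h]⟩
      · exact ⟨1, by omega, by rw [pp_pair]; simp [h]⟩
      · exact ⟨4, by omega, by rw [pp_pair]; simp [h]⟩
      · exact ⟨3, by omega, by rw [pp_pair]; simp [h]⟩
      · refine ⟨0, by omega, ?_⟩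
        rw [pp_pair]
        have h3 := h_spec (0 - 1)
        have h4 := h_spec (n - (0 + 2))
        omega
      · refine ⟨1, by omega, ?_⟩
        rw [pp_pair]
        have h3 := h_spec (1 - 1)
        have h4 := h_spec (n - (1 + 2))
        omega
      · obtain ⟨m, rfl⟩ : ∃ m, n = 4 * m + 3 := ⟨n / 4, by omega⟩
        refine ⟨2 * m + 1, by omega, ?_⟩
        rw [pp_pair]
        have h5 : 4 * m + 3 - (2 * m + 1 + 2) = 2 * m := by omega
        have h6 : 2 * m + 1 - 1 = 2 * m := by omega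
        rw [h5, h6]
        have h3 := h_spec (2 * m)
        omega

/-! ### Cycles -/

theorem pp_single (a : ℕ) : PP (a ::ₘ 0) ↔ a = 1 ∨ a = 5 ∨ (10 ≤ a ∧ a % 4 = 2) := by
  unfold PP
  simp only [H_cons, H_zero, Multiset.sum_cons, Multiset.sum_zero, Multiset.mem_cons,
    Multiset.notMem_zero, or_false, add_zero, forall_eq, exists_eq_left, eq_comm (a := 9)]
  have h1 := h_spec a
  omega

/-- The position of a vertex of the cycle, seen from the vertex `v`. -/
def off {n : ℕ} (v u : Fin n) : ℕ := (u.val + (n - v.val)) % n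

theorem off_cases {n : ℕ} (v u : Fin n) : (v.val ≤ u.val ∧ off v u = u.val - v.val) ∨
    (u.val < v.val ∧ off v u = u.val + n - v.val) := by
  have hu := u.2
  have hv := v.2
  unfold off
  by_cases h1 : v.val ≤ u.val
  · left
    refine ⟨h1, ?_⟩
    have h2 : u.val + (n - v.val) = (u.val - v.val) + n := by omega
    rw [h2, Nat.add_mod_right, Nat.mod_eq_of_lt (by omega)]
  · right
    refine ⟨by omega, ?_⟩
    rw [Nat.mod_eq_of_lt (by omega)]
    omega

theorem mem_closedNbhd_cycle {n : ℕ} (hn : 3 ≤ n) (u v : Fin n) :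
    u ∈ closedNbhd (cycleGraph n) v ↔
      (u.val ≤ v.val + 1 ∧ v.val ≤ u.val + 1) ∨ (u.val = 0 ∧ v.val + 1 = n) ∨
        (v.val = 0 ∧ u.val + 1 = n) := by
  unfold closedNbhd
  rw [Set.mem_setOf_eq, cycleGraph_adj', Fin.ext_iff, Fin.sub_def, Fin.sub_def]
  have hu := u.2
  have hv := v.2
  simp only
  have e1 : (n - v.val + u.val) % n = off v u := by
    unfold off
    rw [add_comm]
  have e2 : (n - u.val + v.val) % n = off u v := by
    unfold off
    rw [add_comm]
  rw [e1, e2]
  have h1 := off_cases v u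
  have h2 := off_cases u v
  omega

theorem cycle_good {n : ℕ} (hn : 3 ≤ n) (v : Fin n) :
    Good (cycleGraph n) (off v) n {v} [(2, n - 3)] where
  und u := by
    unfold Undom
    have hu := u.2
    have hv := v.2
    have h1 := off_cases v u
    simp only [Finset.mem_singleton, forall_eq, mem_closedNbhd_cycle hn, List.mem_cons,
      List.not_mem_nil, or_false, exists_eq_left]
    omega
  bd p hp := by
    simp only [List.mem_cons, List.not_mem_nil, or_false] at hp
    subst hp
    simp only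
    omega
  sep := by simp
  adj u hu w := by
    have hu1 := hu v (by simp)
    rw [mem_closedNbhd_cycle hn] at hu1 ⊢
    have h1 := off_cases v u
    have h2 := off_cases v w
    have hu := u.2
    have hv := v.2
    have hw := w.2
    omega
  lt u := by
    have h1 := off_cases v u
    have hu := u.2
    have hv := v.2
    omega
  surj x hx := by
    have hv := v.2
    by_cases h1 : v.val + x < n
    · refine ⟨⟨v.val + x, h1⟩, ?_⟩
      have h2 := off_cases v ⟨v.val + x, h1⟩
      simp only at h2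
      omega
    · refine ⟨⟨v.val + x - n, by omega⟩, ?_⟩
      have h2 := off_cases v ⟨v.val + x - n, by omega⟩
      simp only at h2
      omega
  ne := ⟨v, by simp⟩

/-- **The winner on cycles.** -/
theorem cycle_winner {n : ℕ} (hn : 3 ≤ n) :
    AliceWins (cycleGraph n) ↔ n = 4 ∨ n = 8 ∨ (13 ≤ n ∧ n % 4 = 1) := by
  have hP : PP (sizes [(2, n - 3)]) ↔ n = 4 ∨ n = 8 ∨ (13 ≤ n ∧ n % 4 = 1) := by
    have h1 : sizes [(2, n - 3)] = (n - 3) ::ₘ 0 := rfl
    rw [h1, pp_single]
    omega
  rw [← hP]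
  unfold AliceWins
  rw [moverWins_iff]
  constructor
  · rintro (h1 | ⟨v, _, h2⟩)
    · exact absurd (legal_empty _) (h1 ⟨0, by omega⟩)
    · by_contra h3
      exact h2 (((cycle_good hn v).wins_iff _ _ _ rfl).2 h3)
  · intro h1
    right
    refine ⟨⟨0, by omega⟩, legal_empty _, fun hw => ?_⟩
    exact ((cycle_good hn ⟨0, by omega⟩).wins_iff _ _ _ rfl).1 hw h1

end Q224.MD
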