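import Pool.Agent.Q224.MD.Oct

/-!
# Misere play of the octal game 0.337: the winning moves
-/

set_option autoImplicit false

namespace Q224.MD

theorem er {X : Multiset ℕ} {c : ℕ} (hc : c ∈ X) :
    H (X.erase c) + h c = H X ∧ (X.erase c).sum + c = X.sum := by
  obtain ⟨R, rfl⟩ := Multiset.exists_cons_of_mem hc
  simp only [Multiset.erase_cons_head, H_cons, Multiset.sum_cons]
  omega

theorem go {X : Multiset ℕ} {c : ℕ} (a b : ℕ) (hc : c ∈ X) (hs : Step c a b)
    (hP : PP (a ::ₘ b ::ₘ X.erase c)) : ∃ Y, Move X Y ∧ PP Y :=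
  ⟨_, ⟨X.erase c, c, a, b, (Multiset.cons_erase hc).symm, hs, rfl⟩, hP⟩

theorem ppA {a b : ℕ} {R : Multiset ℕ} (h0 : h a + h b + H R = 0)
    (s : (a + b + R.sum) % 2 = 1) : PP (a ::ₘ b ::ₘ R) := by
  left
  simp only [H_cons, Multiset.sum_cons]
  omega

theorem ppE {a b : ℕ} {R : Multiset ℕ} (K : ℕ) (hK : h a + h b + H R = K) (h0 : K ≠ 0)
    (s : (a + b + R.sum) % 2 = 0) (ev : K % 2 = 0) (sp : K = 2 → a ≠ 9 ∧ b ≠ 9 ∧ 9 ∉ R)
    (ha : 2 * h a ≤ K + 2 * (a % 2)) (hb : 2 * h b ≤ K + 2 * (b % 2))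
    (hR : ∀ e ∈ R, 2 * h e ≤ K + 2 * (e % 2)) : PP (a ::ₘ b ::ₘ R) := by
  right
  simp only [H_cons, Multiset.sum_cons, Multiset.mem_cons, forall_eq_or_imp]
  have e1 : h a + (h b + H R) = K := by omega
  rw [e1]
  refine ⟨h0, by clear hR sp; omega, ?_, Or.inl ⟨ev, ha, hb, hR⟩⟩
  rintro ⟨h2, h9 | h9 | h9⟩
  · exact (sp h2).1 h9.symm
  · exact (sp h2).2.1 h9.symm
  · exact (sp h2).2.2 h9

theorem ppO {a b : ℕ} {R : Multiset ℕ} (K : ℕ) (hK : h a + h b + H R = K)
    (s : (a + b + R.sum) % 2 = 0) (ev : K % 2 = 1)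
    (hR : K + 3 + 2 * (a % 2) ≤ 2 * h a ∨ ∃ e ∈ R, K + 3 + 2 * (e % 2) ≤ 2 * h e) :
    PP (a ::ₘ b ::ₘ R) := by
  right
  simp only [H_cons, Multiset.sum_cons, Multiset.mem_cons, exists_eq_or_imp]
  have e1 : h a + (h b + H R) = K := by clear hR; omega
  rw [e1]
  refine ⟨by clear hR; omega, by clear hR; omega, ?_, Or.inr ⟨ev, ?_⟩⟩
  · rintro ⟨h2, _⟩
    clear hR
    omega
  · rcases hR with hR | hR
    · exact Or.inl hR
    · exact Or.inr (Or.inr hR)

theorem erase_swap {X : Multiset ℕ} {c e : ℕ} (he : e ∈ X) (hc : c ∈ X.erase e) :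
    c ∈ X ∧ e ∈ X.erase c := by
  have hcX : c ∈ X := Multiset.mem_of_mem_erase hc
  refine ⟨hcX, ?_⟩
  by_cases h : e = c
  · subst h
    exact hc
  · exact (Multiset.mem_erase_of_ne h).2 he

theorem exists_pos {X : Multiset ℕ} (hX : H X ≠ 0) : ∃ c ∈ X, h c ≠ 0 := by
  by_contra hcon
  push Not at hcon
  apply hX
  unfold H
  rw [Multiset.sum_eq_zero_iff]
  intro x hx
  obtain ⟨c, hc, rfl⟩ := Multiset.mem_map.1 hx
  exact hcon c hc

theorem exists_odd {X : Multiset ℕ} (hX : X.sum % 2 = 1) : ∃ c ∈ X, c % 2 = 1 := by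
  induction X using Multiset.induction_on with
  | empty => simp at hX
  | cons a X ih =>
    by_cases ha : a % 2 = 1
    · exact ⟨a, by simp, ha⟩
    · obtain ⟨c, hc, h1⟩ := ih (by rw [Multiset.sum_cons] at hX; omega)
      exact ⟨c, by simp [hc], h1⟩

theorem exists_ne {X : Multiset ℕ} (hX : X.sum ≠ 0) : ∃ c ∈ X, c ≠ 0 := by
  by_contra hcon
  push Not at hcon
  exact hX (Multiset.sum_eq_zero_iff.2 hcon)

/-- Case 1: total weight zero. -/
theorem win1 {X : Multiset ℕ} (h0 : H X = 0) (hs : X.sum % 2 = 0) (hne : X.sum ≠ 0) :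
    ∃ Y, Move X Y ∧ PP Y := by
  obtain ⟨c, hc, hc0⟩ := exists_ne hne
  obtain ⟨e1, e2⟩ := er hc
  have hcs := h_spec c
  have : c = 1 ∨ c = 4 ∨ c = 5 := by omega
  rcases this with rfl | rfl | rfl
  · exact go 0 0 hc (Or.inl ⟨rfl, rfl⟩) (ppA (by simp [h]; omega) (by omega))
  · exact go 1 0 hc (Or.inr (Or.inr rfl)) (ppA (by simp [h]; omega) (by omega))
  · exact go 4 0 hc (Or.inl ⟨rfl, rfl⟩) (ppA (by simp [h]; omega) (by omega))

/-- Case 2.1. -/
theorem win21 {X : Multiset ℕ} (h0 : H X = 2) (hs : X.sum % 2 = 0) (h9 : 9 ∈ X) :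
    ∃ Y, Move X Y ∧ PP Y := by
  obtain ⟨e1, e2⟩ := er h9
  have h99 : h 9 = 2 := rfl
  exact go 1 5 h9 (Or.inr (Or.inr rfl)) (ppA (by simp [h]; omega) (by omega))

/-- Case 2.2. -/
theorem win22 {X : Multiset ℕ} (hs : X.sum % 2 = 0) (hev : H X % 2 = 0) {e : ℕ}
    (he : e ∈ X) (hlt : H X + 2 * (e % 2) < 2 * h e) : ∃ Y, Move X Y ∧ PP Y := by
  obtain ⟨e1, e2⟩ := er he
  have hes := h_spec e
  by_cases h4 : H X + 2 * (e % 2) + 4 ≤ 2 * h e
  · have h5 : 10 ≤ e := by omega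
    have h6 := Step.two (c := e) (a := e - 2) (by omega)
    have hz : h 0 = 0 := rfl
    refine go (e - 2) 0 he (Or.inr (Or.inl ⟨by omega, rfl⟩)) (ppO (H X - 1) ?_ ?_ ?_ (Or.inl ?_))
    · omega
    · omega
    · omega
    · have h7 : (e - 2) % 2 = e % 2 := by omega
      rw [h7]
      omega
  · by_cases hR : H (X.erase e) = 0
    · have : e = 8 ∨ e = 13 := by omega
      rcases this with rfl | rfl
      · exact go 1 4 he (Or.inr (Or.inr rfl)) (ppA (by simp [h]; omega) (by omega))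
      · exact go 5 5 he (Or.inr (Or.inr rfl)) (ppA (by simp [h]; omega) (by omega))
    · obtain ⟨c, hc, hc0⟩ := exists_pos hR
      obtain ⟨hcX, heR⟩ := erase_swap he hc
      obtain ⟨f1, f2⟩ := er hcX
      have hcs := h_spec c
      have h6 := Step.two (c := c) (a := c - 2) (by omega)
      have hz : h 0 = 0 := rfl
      refine go (c - 2) 0 hcX (Or.inr (Or.inl ⟨by omega, rfl⟩))
        (ppO (H X - 1) ?_ ?_ ?_ (Or.inr ⟨e, heR, ?_⟩))
      · omega
      · omega
      · omega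
      · omega

/-- Case 2.3, total weight one. -/
theorem win23a {X : Multiset ℕ} (h0 : H X = 1) (hs : X.sum % 2 = 0) :
    ∃ Y, Move X Y ∧ PP Y := by
  obtain ⟨c, hc, hc0⟩ := exists_pos (X := X) (by omega)
  obtain ⟨e1, e2⟩ := er hc
  have hcs := h_spec c
  have : c = 2 ∨ c = 6 ∨ c = 3 ∨ c = 7 := by omega
  rcases this with rfl | rfl | rfl | rfl
  · exact go 1 0 hc (Or.inl ⟨rfl, rfl⟩) (ppA (by simp [h]; omega) (by omega))
  · exact go 5 0 hc (Or.inl ⟨rfl, rfl⟩) (ppA (by simp [h]; omega) (by omega))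
  · exact go 0 0 hc (Or.inr (Or.inr rfl)) (ppA (by simp [h]; omega) (by omega))
  · exact go 4 0 hc (Or.inr (Or.inr rfl)) (ppA (by simp [h]; omega) (by omega))

/-- Case 2.3, total weight at least three. -/
theorem win23b {X : Multiset ℕ} (h0 : 3 ≤ H X) (hs : X.sum % 2 = 0) (hodd : H X % 2 = 1)
    (hall : ∀ c ∈ X, 2 * h c < H X + 3 + 2 * (c % 2)) : ∃ Y, Move X Y ∧ PP Y := by
  have hz : h 0 = 0 := rfl
  have h9 : h 9 = 2 := rfl
  by_cases hex : ∃ e ∈ X, 2 * h e = H X + 1 + 2 * (e % 2)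
  · obtain ⟨e, he, heq⟩ := hex
    obtain ⟨e1, e2⟩ := er he
    have hes := h_spec e
    by_cases h11 : e = 11 ∧ H X = 3
    · obtain ⟨rfl, h3⟩ := h11
      exact go 4 4 he (Or.inr (Or.inr rfl)) (ppA (by simp [h] at e1 ⊢; omega) (by omega))
    · have h6 := Step.two (c := e) (a := e - 2) (by omega)
      have h7 : (e - 2) % 2 = e % 2 := by omega
      refine go (e - 2) 0 he (Or.inr (Or.inl ⟨by omega, rfl⟩)) (ppE (H X - 1) ?_ ?_ ?_ ?_ ?_ ?_ ?_ ?_)
      · omega
      · omega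
      · omega
      · omega
      · intro h2
        refine ⟨by omega, by omega, fun h99 => ?_⟩
        have := h_le_H h99
        omega
      · rw [h7]
        omega
      · omega
      · intro c hc
        have := h_le_H hc
        omega
  · push Not at hex
    have hall' : ∀ c ∈ X, 2 * h c ≤ H X - 1 + 2 * (c % 2) := by
      intro c hc
      have h1 := hall c hc
      have h2 := hex c hc
      omega
    by_cases h99 : 9 ∈ X
    · obtain ⟨e1, e2⟩ := er h99
      have h7 : h 7 = 1 := rfl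
      refine go 7 0 h99 (Or.inr (Or.inl ⟨rfl, rfl⟩)) (ppE (H X - 1) ?_ ?_ ?_ ?_ ?_ ?_ ?_ ?_)
      · omega
      · omega
      · omega
      · omega
      · intro h2
        refine ⟨by omega, by omega, fun h999 => ?_⟩
        have := h_le_H h999
        omega
      · omega
      · omega
      · intro c hc
        exact hall' c (Multiset.mem_of_mem_erase hc)
    · obtain ⟨c, hc, hc0⟩ := exists_pos (X := X) (by omega)
      obtain ⟨e1, e2⟩ := er hc
      have hcs := h_spec c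
      have hc1 := hall' c hc
      have h6 := Step.two (c := c) (a := c - 2) (by omega)
      have h7 : (c - 2) % 2 = c % 2 := by omega
      refine go (c - 2) 0 hc (Or.inr (Or.inl ⟨by omega, rfl⟩)) (ppE (H X - 1) ?_ ?_ ?_ ?_ ?_ ?_ ?_ ?_)
      · omega
      · omega
      · omega
      · omega
      · intro h2
        exact ⟨by omega, by omega, fun h999 => h99 (Multiset.mem_of_mem_erase h999)⟩
      · rw [h7]
        omega
      · omega
      · intro c hc
        exact hall' c (Multiset.mem_of_mem_erase hc)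

end Q224.MD
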